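import Mathlib
import Pool.Agent.V11304.RP.Part

/-!
# `(3,6)`-tight graphs are exactly the graphs with property (P)
-/

set_option linter.unusedSectionVars false
set_option linter.unusedVariables false

namespace Pool.Agent.Results.MP_eace5d_co.Full

/-- A finite multigraph is given by its vertex type `W`, its finite set of edges `S : Finset ι`
and the map `ends : ι → Sym2 W` which gives the unordered pair of ends of an edge (different edges
may have the same ends).  It is `(k, l)`-sparse if every subgraph `(X, F)` (a set `X` of vertices
and a set `F` of edges with all ends in `X`) with `|X| ≥ k` has `|F| ≤ k |X| - l`. -/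
def Sparse {ι W : Type} (k l : ℕ) (ends : ι → Sym2 W) (S : Finset ι) : Prop :=
  ∀ (X : Finset W) (F : Finset ι), F ⊆ S → (∀ f ∈ F, ∀ v ∈ ends f, v ∈ X) → k ≤ X.card →
    (F.card : ℤ) ≤ k * X.card - l

/-- The multigraph is `(k, l)`-tight if it is `(k, l)`-sparse with exactly `k |W| - l` edges. -/
def Tight {ι W : Type} [Fintype W] (k l : ℕ) (ends : ι → Sym2 W) (S : Finset ι) : Prop :=
  Sparse k l ends S ∧ (S.card : ℤ) = k * Fintype.card W - l

section

variable {V : Type} [Fintype V] [DecidableEq V]

/-- The contraction of `e` on vertices: the vertices that are not ends of `e` are kept, the two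
ends of `e` become the new vertex `none`. -/
def contr (e : Sym2 V) (v : V) : Option {v : V // v ∉ e} :=
  if h : v ∈ e then none else some ⟨v, h⟩

/-- For an edge set `S` of the complete graph on `V`, the graph `(V, S)` is `(2,3)`-tight. -/
def Tight23 (S : Finset (Sym2 V)) : Prop := Tight 2 3 (fun f : Sym2 V => f) S

/-- For an edge set `S` containing `e`, the multigraph `(V, S)/e` is `(2,3)`-tight: its vertices
are the vertices outside `e` and one new vertex, its edges are the members of `S` other than `e`,
with their ends mapped by the contraction (parallel edges are kept). -/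
def Tight23Contr (e : Sym2 V) (S : Finset (Sym2 V)) : Prop :=
  Tight 2 3 (Sym2.map (contr e)) (S.erase e)

/-- Property (P): for every edge `e` of `G` there is a partition `(S₁, S₂, S₃)` of the edge set
with `|Sᵢ| = |V| - i`, `e ∈ S₁` and all of `(V, S₁ ∪ S₂)`, `(V, S₁ ∪ S₃)/e`,
`(V, S₂ ∪ S₃ ∪ {e})/e` being `(2,3)`-tight. -/
def PropP (G : SimpleGraph V) [DecidableRel G.Adj] : Prop :=
  ∀ e ∈ G.edgeFinset, ∃ S₁ S₂ S₃ : Finset (Sym2 V),
    (S₁ ∪ S₂ ∪ S₃ = G.edgeFinset ∧ Disjoint S₁ S₂ ∧ Disjoint S₁ S₃ ∧ Disjoint S₂ S₃) ∧
    ((S₁.card : ℤ) = Fintype.card V - 1 ∧ (S₂.card : ℤ) = Fintype.card V - 2 ∧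
      (S₃.card : ℤ) = Fintype.card V - 3) ∧
    e ∈ S₁ ∧
    Tight23 (S₁ ∪ S₂) ∧ Tight23Contr e (S₁ ∪ S₃) ∧ Tight23Contr e (S₂ ∪ S₃ ∪ {e})

end

open Pool.Agent.H598R2.Cnt Pool.Agent.V11304.RP

section Proof

variable {V : Type} [Fintype V] [DecidableEq V]

theorem toFinset_mk (u v : V) : Sym2.toFinset s(u, v) = {u, v} := by
  ext x
  simp

theorem toFinset_injective : Function.Injective (Sym2.toFinset (α := V)) := by
  intro e f h
  apply Sym2.ext
  intro x
  rw [← Sym2.mem_toFinset, ← Sym2.mem_toFinset, h]

theorem ins_image (S : Finset (Sym2 V)) (X : Finset V) :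
    ins (S.image Sym2.toFinset) X = (S.filter (fun f => f.toFinset ⊆ X)).card := by
  unfold ins
  rw [Finset.filter_image, Finset.card_image_of_injective _ toFinset_injective]

theorem sub_iff (f : Sym2 V) (X : Finset V) : f.toFinset ⊆ X ↔ ∀ v ∈ f, v ∈ X := by
  constructor
  · intro h v hv
    exact h (Sym2.mem_toFinset.2 hv)
  · intro h v hv
    exact h v (Sym2.mem_toFinset.1 hv)

theorem card_compl {x y : V} (hxy : x ≠ y) :
    Fintype.card (Option {v : V // v ∉ s(x, y)}) + 1 = Fintype.card V := by
  rw [Fintype.card_option, Fintype.card_subtype]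
  have h1 := Finset.card_filter_add_card_filter_not (s := (Finset.univ : Finset V))
    (fun v => v ∈ s(x, y))
  have h2 : (Finset.univ.filter (fun v => v ∈ s(x, y))) = {x, y} := by
    ext v
    simp
  rw [h2, Finset.card_pair hxy, Finset.card_univ] at h1
  omega

/-- back from the contraction -/
def back (x y : V) : Option {v : V // v ∉ s(x, y)} → V
  | none => x
  | some v => v.1

theorem back_inj (x y : V) : Function.Injective (back x y) := by
  intro a b h
  rcases a with _ | ⟨a, ha⟩ <;> rcases b with _ | ⟨b, hb⟩
  · rfl
  · exfalso
    have : x = b := h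
    subst this
    exact hb (Sym2.mem_mk_left _ _)
  · exfalso
    have : a = x := h
    subst this
    exact ha (Sym2.mem_mk_left _ _)
  · have : a = b := h
    subst this
    rfl

theorem back_contr {x y : V} (hxy : x ≠ y) (w : V) : back x y (contr s(x, y) w) = pi x y w := by
  unfold contr
  split_ifs with h
  · show x = pi x y w
    rcases Sym2.mem_iff.1 h with rfl | rfl
    · rw [pi_of_ne hxy]
    · rw [pi_y]
  · show w = pi x y w
    rw [pi_of_ne (v := w) (y := y) (fun hh => h (hh ▸ Sym2.mem_mk_right _ _))]

/-- `(2,3)`-tightness of a contraction -/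
theorem tight_contr {x y : V} (hxy : x ≠ y) {Q : Finset (Sym2 V)}
    (hinj : Set.InjOn (cc x y) ((Q.image Sym2.toFinset : Finset (Finset V)) : Set (Finset V)))
    (hsp : Sp ((Q.image Sym2.toFinset).image (cc x y)))
    (hc : Q.card + 5 = 2 * Fintype.card V) : Tight 2 3 (Sym2.map (contr s(x, y))) Q := by
  constructor
  · intro X F hF hX h2
    have h3 : (X.image (back x y)).card = X.card := Finset.card_image_of_injective _ (back_inj x y)
    have h4 := hsp (X.image (back x y)) (by omega)
    have h5 : F.card ≤ ins ((Q.image Sym2.toFinset).image (cc x y)) (X.image (back x y)) := by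
      unfold ins
      have h6 : (F.image (fun f => cc x y f.toFinset)).card = F.card := by
        apply Finset.card_image_of_injOn
        intro f hf g hg hfg
        apply toFinset_injective
        exact hinj (Finset.mem_coe.2 (Finset.mem_image_of_mem _ (hF hf)))
          (Finset.mem_coe.2 (Finset.mem_image_of_mem _ (hF hg))) hfg
      rw [← h6]
      apply Finset.card_le_card
      intro q hq
      obtain ⟨f, hf, rfl⟩ := Finset.mem_image.1 hq
      refine Finset.mem_filter.2
        ⟨Finset.mem_image_of_mem _ (Finset.mem_image_of_mem _ (hF hf)), ?_⟩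
      intro v hv
      obtain ⟨w, hw, rfl⟩ := Finset.mem_image.1 hv
      rw [Sym2.mem_toFinset] at hw
      rw [← back_contr hxy]
      exact Finset.mem_image_of_mem _ (hX f hf _ (Sym2.mem_map.2 ⟨w, hw, rfl⟩))
    push_cast
    omega
  · have := card_compl hxy
    push_cast
    omega

theorem forward (G : SimpleGraph V) [DecidableRel G.Adj]
    (h : Tight 3 6 (fun f : Sym2 V => f) G.edgeFinset) : PropP G := by
  classical
  intro e he
  induction e with
  | _ x y =>
    have hxy : x ≠ y := by
      rw [SimpleGraph.mem_edgeFinset] at he
      exact G.ne_of_adj he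
    set E := G.edgeFinset.image Sym2.toFinset with hEdef
    have hP : Pairs E := by
      intro q hq
      obtain ⟨f, hf, rfl⟩ := Finset.mem_image.1 hq
      exact Sym2.card_toFinset_of_not_isDiag _ (G.not_isDiag_of_mem_edgeFinset hf)
    have hE : ∀ X : Finset V, 3 ≤ X.card → ins E X + 6 ≤ 3 * X.card := by
      intro X hX
      have h1 := h.1 X (G.edgeFinset.filter (fun f => f.toFinset ⊆ X)) (Finset.filter_subset _ _)
        (fun f hf => (sub_iff f X).1 (Finset.mem_filter.1 hf).2) hX
      rw [← ins_image, ← hEdef] at h1
      push_cast at h1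
      omega
    have hEc : E.card + 6 = 3 * Fintype.card V := by
      have h1 := h.2
      rw [hEdef, Finset.card_image_of_injective _ toFinset_injective]
      push_cast at h1
      omega
    have hxyE : ({x, y} : Finset V) ∈ E :=
      Finset.mem_image.2 ⟨s(x, y), he, toFinset_mk x y⟩
    obtain ⟨c, h1, h2, h3⟩ := exists_coloring hP hE hEc hxy hxyE
    set E' := G.edgeFinset.erase s(x, y) with hE'
    have himg : ∀ i : Fin 3, (E'.filter (fun f => c f.toFinset ≠ i)).image Sym2.toFinset =
        (E.erase {x, y}).filter (fun f => c f ≠ i) := by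
      intro i
      ext q
      simp only [Finset.mem_image, Finset.mem_filter, Finset.mem_erase, hE', hEdef]
      constructor
      · rintro ⟨f, ⟨⟨h4, h5⟩, h6⟩, rfl⟩
        refine ⟨⟨?_, f, h5, rfl⟩, h6⟩
        rw [← toFinset_mk]
        exact fun hh => h4 (toFinset_injective hh)
      · rintro ⟨⟨h4, f, h5, rfl⟩, h6⟩
        refine ⟨f, ⟨⟨?_, h5⟩, h6⟩, rfl⟩
        rintro rfl
        exact h4 (toFinset_mk x y)
    have hcard : ∀ i : Fin 3, (E'.filter (fun f => c f.toFinset ≠ i)).card =
        ((E.erase {x, y}).filter (fun f => c f ≠ i)).card := by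
      intro i
      rw [← himg i, Finset.card_image_of_injective _ toFinset_injective]
    have hPQ : ∀ i : Fin 3, (E'.filter (fun f => c f.toFinset = i)).card +
        (E'.filter (fun f => c f.toFinset ≠ i)).card = E'.card := fun i =>
      Finset.card_filter_add_card_filter_not (s := E') (fun f => c f.toFinset = i)
    have hE'c : E'.card + 1 = G.edgeFinset.card := Finset.card_erase_add_one he
    have hGc : G.edgeFinset.card + 6 = 3 * Fintype.card V := by
      rw [← hEc, hEdef, Finset.card_image_of_injective _ toFinset_injective]
    have c0 := (h1 0 (by decide)).2.2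
    have c1 := (h1 1 (by decide)).2.2
    rw [← hcard] at c0 c1 h3
    have p0 := hPQ 0
    have p1 := hPQ 1
    have p2 := hPQ 2
    have heE' : s(x, y) ∉ E' := Finset.notMem_erase _ _
    have heP : ∀ i : Fin 3, s(x, y) ∉ E'.filter (fun f => c f.toFinset = i) := fun i hh =>
      heE' (Finset.mem_filter.1 hh).1
    have hdis : ∀ i j : Fin 3, i ≠ j → Disjoint (E'.filter (fun f => c f.toFinset = i))
        (E'.filter (fun f => c f.toFinset = j)) := by
      intro i j hij
      rw [Finset.disjoint_left]
      intro f hf hf'
      exact hij ((Finset.mem_filter.1 hf).2.symm.trans (Finset.mem_filter.1 hf').2)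
    have hc3 : ∀ f : Sym2 V, c f.toFinset = 0 ∨ c f.toFinset = 1 ∨ c f.toFinset = 2 := by
      intro f
      generalize c f.toFinset = i
      fin_cases i <;> simp
    refine ⟨insert s(x, y) (E'.filter (fun f => c f.toFinset = 0)),
      E'.filter (fun f => c f.toFinset = 1), E'.filter (fun f => c f.toFinset = 2),
      ⟨?_, ?_, ?_, hdis 1 2 (by decide)⟩, ⟨?_, ?_, ?_⟩, Finset.mem_insert_self _ _, ?_, ?_, ?_⟩
    · ext f
      simp only [Finset.mem_union, Finset.mem_insert, Finset.mem_filter, hE', Finset.mem_erase]
      constructor
      · rintro (((rfl | h4) | h4) | h4)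
        · exact he
        · exact h4.1.2
        · exact h4.1.2
        · exact h4.1.2
      · intro hf
        by_cases hfe : f = s(x, y)
        · exact Or.inl (Or.inl (Or.inl hfe))
        · rcases hc3 f with h4 | h4 | h4
          · exact Or.inl (Or.inl (Or.inr ⟨⟨hfe, hf⟩, h4⟩))
          · exact Or.inl (Or.inr ⟨⟨hfe, hf⟩, h4⟩)
          · exact Or.inr ⟨⟨hfe, hf⟩, h4⟩
    · rw [Finset.disjoint_insert_left]
      exact ⟨heP 1, hdis 0 1 (by decide)⟩
    · rw [Finset.disjoint_insert_left]
      exact ⟨heP 2, hdis 0 2 (by decide)⟩
    · rw [Finset.card_insert_of_notMem (heP 0)]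
      push_cast
      omega
    · omega
    · omega
    · -- `S₁ ∪ S₂`
      have hset : insert s(x, y) (E'.filter (fun f => c f.toFinset = 0)) ∪
          E'.filter (fun f => c f.toFinset = 1) =
          insert s(x, y) (E'.filter (fun f => c f.toFinset ≠ 2)) := by
        rw [Finset.insert_union, ← Finset.filter_or]
        congr 1
        apply Finset.filter_congr
        intro f _
        constructor
        · rintro (h4 | h4) <;> rw [h4] <;> decide
        · intro h4
          rcases hc3 f with h5 | h5 | h5
          · exact Or.inl h5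
          · exact Or.inr h5
          · exact absurd h5 h4
      have hsp : Sp ((insert s(x, y) (E'.filter (fun f => c f.toFinset ≠ 2))).image
          Sym2.toFinset) := by
        rw [Finset.image_insert, himg 2, toFinset_mk]
        exact h2
      rw [hset]
      constructor
      · intro X F hF hX h4
        have h5 := hsp X h4
        rw [ins_image] at h5
        have h6 : F.card ≤ ((insert s(x, y) (E'.filter (fun f => c f.toFinset ≠ 2))).filter
            (fun f => f.toFinset ⊆ X)).card := by
          apply Finset.card_le_card
          intro f hf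
          exact Finset.mem_filter.2 ⟨hF hf, (sub_iff f X).2 (hX f hf)⟩
        push_cast
        omega
      · rw [Finset.card_insert_of_notMem (fun hh => heE' (Finset.mem_filter.1 hh).1)]
        push_cast
        omega
    · -- `(S₁ ∪ S₃)/e`
      have hset : (insert s(x, y) (E'.filter (fun f => c f.toFinset = 0)) ∪
          E'.filter (fun f => c f.toFinset = 2)).erase s(x, y) =
          E'.filter (fun f => c f.toFinset ≠ 1) := by
        rw [Finset.insert_union, ← Finset.filter_or, Finset.erase_insert
          (fun hh => heE' (Finset.mem_filter.1 hh).1)]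
        apply Finset.filter_congr
        intro f _
        constructor
        · rintro (h4 | h4) <;> rw [h4] <;> decide
        · intro h4
          rcases hc3 f with h5 | h5 | h5
          · exact Or.inl h5
          · exact absurd h5 h4
          · exact Or.inr h5
      unfold Tight23Contr
      rw [hset]
      have h4 := h1 1 (by decide)
      apply tight_contr hxy
      · rw [himg 1]; exact h4.1
      · rw [himg 1]; exact h4.2.1
      · exact c1
    · -- `(S₂ ∪ S₃ ∪ {e})/e`
      have hset : (E'.filter (fun f => c f.toFinset = 1) ∪
          E'.filter (fun f => c f.toFinset = 2) ∪ {s(x, y)}).erase s(x, y) =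
          E'.filter (fun f => c f.toFinset ≠ 0) := by
        rw [← Finset.filter_or, Finset.union_comm, ← Finset.insert_eq, Finset.erase_insert
          (fun hh => heE' (Finset.mem_filter.1 hh).1)]
        apply Finset.filter_congr
        intro f _
        constructor
        · rintro (h4 | h4) <;> rw [h4] <;> decide
        · intro h4
          rcases hc3 f with h5 | h5 | h5
          · exact absurd h5 h4
          · exact Or.inl h5
          · exact Or.inr h5
      unfold Tight23Contr
      rw [hset]
      have h4 := h1 0 (by decide)
      apply tight_contr hxy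
      · rw [himg 0]; exact h4.1
      · rw [himg 0]; exact h4.2.1
      · exact c0

theorem contr_image_card {x y : V} (hxy : x ≠ y) {X : Finset V} (hx : x ∈ X) (hy : y ∈ X) :
    (X.image (contr s(x, y))).card + 1 = X.card := by
  have h1 : X.image (contr s(x, y)) = (X.erase y).image (contr s(x, y)) := by
    ext w
    simp only [Finset.mem_image, Finset.mem_erase]
    constructor
    · rintro ⟨v, hv, rfl⟩
      by_cases hvy : v = y
      · subst hvy
        refine ⟨x, ⟨hxy, hx⟩, ?_⟩
        simp [contr]
      · exact ⟨v, ⟨hvy, hv⟩, rfl⟩
    · rintro ⟨v, ⟨-, hv⟩, rfl⟩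
      exact ⟨v, hv, rfl⟩
  rw [h1, Finset.card_image_of_injOn]
  · exact Finset.card_erase_add_one hy
  · intro a ha b hb hab
    have h2 := congrArg (back x y) hab
    rw [back_contr hxy, back_contr hxy, pi_of_ne (Finset.ne_of_mem_erase ha),
      pi_of_ne (Finset.ne_of_mem_erase hb)] at h2
    exact h2

theorem backward (G : SimpleGraph V) [DecidableRel G.Adj] (hE : G.edgeFinset.Nonempty)
    (h : PropP G) : Tight 3 6 (fun f : Sym2 V => f) G.edgeFinset := by
  classical
  constructor
  · intro X F hF hX h3
    rcases F.eq_empty_or_nonempty with rfl | ⟨e, he⟩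
    · rw [Finset.card_empty]
      push_cast
      omega
    · obtain ⟨S₁, S₂, S₃, ⟨hU, d12, d13, d23⟩, -, he1, t1, t2, t3⟩ := h e (hF he)
      induction e with
      | _ x y =>
        have hxy : x ≠ y := by
          have := hF he
          rw [SimpleGraph.mem_edgeFinset] at this
          exact G.ne_of_adj this
        have hx : x ∈ X := hX _ he x (Sym2.mem_mk_left _ _)
        have hy : y ∈ X := hX _ he y (Sym2.mem_mk_right _ _)
        have hc := contr_image_card hxy hx hy
        have hFU : F = (F ∩ S₁) ∪ (F ∩ S₂) ∪ (F ∩ S₃) := by
          rw [← Finset.inter_union_distrib_left, ← Finset.inter_union_distrib_left, hU]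
          exact (Finset.inter_eq_left.2 hF).symm
        have i12 : Disjoint (F ∩ S₁) (F ∩ S₂) := d12.mono Finset.inter_subset_right
          Finset.inter_subset_right
        have i13 : Disjoint (F ∩ S₁) (F ∩ S₃) := d13.mono Finset.inter_subset_right
          Finset.inter_subset_right
        have i23 : Disjoint (F ∩ S₂) (F ∩ S₃) := d23.mono Finset.inter_subset_right
          Finset.inter_subset_right
        have hFc : F.card = (F ∩ S₁).card + (F ∩ S₂).card + (F ∩ S₃).card := by
          nth_rewrite 1 [hFU]
          rw [Finset.card_union_of_disjoint (Finset.disjoint_union_left.2 ⟨i13, i23⟩),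
            Finset.card_union_of_disjoint i12]
        have hXc : ∀ f ∈ F, ∀ v ∈ Sym2.map (contr s(x, y)) f, v ∈ X.image (contr s(x, y)) := by
          intro f hf v hv
          obtain ⟨w, hw, rfl⟩ := Sym2.mem_map.1 hv
          exact Finset.mem_image_of_mem _ (hX f hf w hw)
        -- the three counts
        have k1 := t1.1 X (F ∩ S₁ ∪ F ∩ S₂)
          (Finset.union_subset_union Finset.inter_subset_right Finset.inter_subset_right)
          (fun f hf => hX f (by
            rcases Finset.mem_union.1 hf with hf | hf
            · exact (Finset.mem_inter.1 hf).1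
            · exact (Finset.mem_inter.1 hf).1)) (by omega)
        rw [Finset.card_union_of_disjoint i12] at k1
        have k2 := t2.1 (X.image (contr s(x, y))) ((F ∩ S₁ ∪ F ∩ S₃).erase s(x, y))
          (Finset.erase_subset_erase _
            (Finset.union_subset_union Finset.inter_subset_right Finset.inter_subset_right))
          (fun f hf => hXc f (by
            rcases Finset.mem_union.1 (Finset.mem_of_mem_erase hf) with hf | hf
            · exact (Finset.mem_inter.1 hf).1
            · exact (Finset.mem_inter.1 hf).1)) (by omega)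
        have k2' : ((F ∩ S₁ ∪ F ∩ S₃).erase s(x, y)).card + 1 = (F ∩ S₁).card + (F ∩ S₃).card := by
          rw [Finset.card_erase_add_one (Finset.mem_union_left _ (Finset.mem_inter.2 ⟨he, he1⟩)),
            Finset.card_union_of_disjoint i13]
        have k3 := t3.1 (X.image (contr s(x, y))) (F ∩ S₂ ∪ F ∩ S₃)
          (by
            intro f hf
            refine Finset.mem_erase.2 ⟨?_, Finset.mem_union_left _
              (Finset.union_subset_union Finset.inter_subset_right Finset.inter_subset_right hf)⟩
            rintro rfl
            rcases Finset.mem_union.1 hf with hf | hf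
            · exact Finset.disjoint_left.1 d12 he1 (Finset.mem_inter.1 hf).2
            · exact Finset.disjoint_left.1 d13 he1 (Finset.mem_inter.1 hf).2)
          (fun f hf => hXc f (by
            rcases Finset.mem_union.1 hf with hf | hf
            · exact (Finset.mem_inter.1 hf).1
            · exact (Finset.mem_inter.1 hf).1)) (by omega)
        rw [Finset.card_union_of_disjoint i23] at k3
        push_cast at k1 k2 k3 ⊢
        omega
  · obtain ⟨e, he⟩ := hE
    obtain ⟨S₁, S₂, S₃, ⟨hU, d12, d13, d23⟩, ⟨c1, c2, c3⟩, -⟩ := h e he
    rw [← hU, Finset.card_union_of_disjoint (Finset.disjoint_union_left.2 ⟨d13, d23⟩),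
      Finset.card_union_of_disjoint d12]
    push_cast
    omega

end Proof

/-- **MP_eace5d_co, Q1 (answer: the equivalence holds).** A finite simple graph with at least four
vertices and at least one edge is `(3,6)`-tight if and only if it has property (P). -/
theorem result (V : Type) [Fintype V] [DecidableEq V] (G : SimpleGraph V) [DecidableRel G.Adj]
    (_hV : 4 ≤ Fintype.card V) (hE : G.edgeFinset.Nonempty) :
    Tight 3 6 (fun f : Sym2 V => f) G.edgeFinset ↔ PropP G :=
  ⟨forward G, backward G hE⟩

end Pool.Agent.Results.MP_eace5d_co.Full
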